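import Pool.Agent.H91.NV.LTargets

/-!
# Row L_NEL of the board nvk_modules: the local means at the small primes together
-/

set_option autoImplicit false

open MeasureTheory Set Filter NumberField NumberField.InfinitePlace
open scoped Real

namespace Pool.Agent.H31.NVK

open Pool.Agent.H65.CM4 Pool.Agent.H61.NVK Pool.Agent.H89.NV Pool.Agent.H91.NV

section

variable (k : Type) [Field k] [NumberField k] [IsTotallyReal k]

/-- sum over the subsets of a product -/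
lemma pow_sum {ι : Type*} [DecidableEq ι] (R : Finset ι) (u v : ι → ℝ) :
    ∑ n ∈ R.powerset, ∏ P ∈ R, (if P ∈ n then u P else v P) = ∏ P ∈ R, (u P + v P) := by
  rw [Finset.prod_add]
  refine Finset.sum_congr rfl fun n hn => ?_
  rw [Finset.mem_powerset] at hn
  rw [← Finset.prod_sdiff hn, mul_comm]
  have h1 : ∏ P ∈ n, (if P ∈ n then u P else v P) = ∏ P ∈ n, u P :=
    Finset.prod_congr rfl fun P hP => if_pos hP
  have h2 : ∏ P ∈ R \ n, (if P ∈ n then u P else v P) = ∏ P ∈ R \ n, v P :=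
    Finset.prod_congr rfl fun P hP => if_neg (Finset.mem_sdiff.mp hP).2
  rw [h1, h2]

/-- cut sums -/
lemma cut_sum (v w : ℕ) (hv : v ≤ 2) (hw : w ≤ 2) (g : ℕ → ℕ → ℝ) :
    ∑ y ∈ Finset.range 3 ×ˢ Finset.range 3, (if y.1 ≤ v ∧ y.2 ≤ w then g y.1 y.2 else 0) =
      ∑ i ∈ Finset.range (v + 1), ∑ j ∈ Finset.range (w + 1), g i j := by
  rw [Finset.sum_product]
  interval_cases v <;> interval_cases w <;> simp [Finset.sum_range_succ]

lemma tt_le (n₁ n₂ : Finset (PrI k)) (P : PrI k) : tt n₁ n₂ P ≤ 2 := by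
  unfold tt
  split_ifs <;> omega

lemma vi_le (P : PrI k) (I : Ideal (𝓞 k)) : vi P I ≤ 2 := by
  unfold vi
  split_ifs <;> omega

lemma le_vi (P : PrI k) (I : Ideal (𝓞 k)) (i : ℕ) (hi : i < 3) : i ≤ vi P I ↔ P.1 ^ i ∣ I := by
  unfold vi
  have h21 : P.1 ^ 2 ∣ I → P.1 ∣ I := fun h => (dvd_pow_self P.1 two_ne_zero).trans h
  interval_cases i
  · simp
  · rw [pow_one]
    split_ifs with h1 h2
    · exact ⟨fun _ => h21 h1, fun _ => by norm_num⟩
    · exact ⟨fun _ => h2, fun _ => le_rfl⟩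
    · exact ⟨fun h => absurd h (by norm_num), fun h => absurd h h2⟩
  · split_ifs with h1 h2
    · exact ⟨fun _ => h1, fun _ => le_rfl⟩
    · exact ⟨fun h => absurd h (by norm_num), fun h => absurd h h1⟩
    · exact ⟨fun h => absurd h (by norm_num), fun h => absurd h h1⟩

lemma cop (P Q : PrI k) (h : P ≠ Q) : IsCoprime P.1 Q.1 := by
  have hP : P.1.IsMaximal := P.2.1.isMaximal P.2.2
  have hQ : Q.1.IsMaximal := Q.2.1.isMaximal Q.2.2
  rw [Ideal.isCoprime_iff_sup_eq]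
  exact hP.coprime_of_ne hQ (fun h' => h (Subtype.ext h'))

theorem pf_NEL (hLOC : T_LOC k) (hGLF : T_GLF) (hLOP : T_LOP k) (hIDL : T_IDL k) : T_NEL k := by
  classical
  intro f R hf hR
  have hnm1 : nm (1 : Ideal (𝓞 k)) = 1 := by
    unfold nm
    rw [map_one]
    norm_num
  have hmul := hIDL.2.2.2.1
  have hpow : ∀ (I : Ideal (𝓞 k)) (n : ℕ), nm (I ^ n) = nm I ^ n := by
    intro I n
    induction n with
    | zero => rw [pow_zero, pow_zero, hnm1]
    | succ n ih => rw [pow_succ, pow_succ, hmul, ih]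
  have hprod : ∀ (s : Finset {P // P ∈ R}) (g : {P // P ∈ R} → Ideal (𝓞 k)),
      nm (∏ P ∈ s, g P) = ∏ P ∈ s, nm (g P) := by
    intro s g
    induction s using Finset.induction_on with
    | empty => rw [Finset.prod_empty, Finset.prod_empty, hnm1]
    | insert a s ha ih => rw [Finset.prod_insert ha, Finset.prod_insert ha, hmul, ih]
  let D : Finset (ℕ × ℕ) := Finset.range 3 ×ˢ Finset.range 3
  let Q : Finset ((a : PrI k) → a ∈ R → ℕ × ℕ) := R.pi (fun _ => D)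
  let pr : ((a : PrI k) → a ∈ R → ℕ × ℕ) → Ideal (𝓞 k) × Ideal (𝓞 k) := fun y =>
    (∏ P ∈ R.attach, P.1.1 ^ (y P.1 P.2).1, ∏ P ∈ R.attach, P.1.1 ^ (y P.1 P.2).2)
  let fp : PrI k → ℕ → ℕ × ℕ → ℝ := fun P t x => Fl (1 / np P) t x.1 x.2
  have hy : ∀ y ∈ Q, ∀ P : {P // P ∈ R}, (y P.1 P.2).1 < 3 ∧ (y P.1 P.2).2 < 3 := by
    intro y hyQ P
    have h1 := Finset.mem_pi.mp hyQ P.1 P.2
    have h2 := Finset.mem_product.mp h1
    exact ⟨Finset.mem_range.mp h2.1, Finset.mem_range.mp h2.2⟩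
  have hdvd : ∀ (g : {P // P ∈ R} → ℕ) (A : Ideal (𝓞 k)),
      ((∏ P ∈ R.attach, P.1.1 ^ g P) ∣ A ↔ ∀ P ∈ R.attach, P.1.1 ^ g P ∣ A) := by
    intro g A
    constructor
    · intro h P hP
      exact (Finset.dvd_prod_of_mem (fun P : {P // P ∈ R} => P.1.1 ^ g P) hP).trans h
    · intro h
      refine Finset.prod_dvd_of_coprime ?_ h
      intro P _ P' _ hPP
      exact (cop k P.1 P'.1 (fun h => hPP (Subtype.ext h))).pow
  refine ⟨Q.image pr, fun n₁ n₂ x => ∑ y ∈ Q.filter (fun y => pr y = x),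
    ∏ P ∈ R.attach, fp P.1 (tt n₁ n₂ P.1) (y P.1 P.2), ?_, ?_, ?_⟩
  · intro x hx
    obtain ⟨y, hyQ, rfl⟩ := Finset.mem_image.mp hx
    have hN' : idS R ^ 2 = ∏ P ∈ R.attach, P.1.1 ^ 2 := by
      unfold idS
      rw [Finset.prod_attach R (fun P => P.1 ^ 2), Finset.prod_pow]
    rw [hN']
    constructor
    · refine Finset.prod_dvd_prod_of_dvd _ _ fun P _ => ?_
      exact pow_dvd_pow _ (by have := (hy y hyQ P).1; omega)
    · refine Finset.prod_dvd_prod_of_dvd _ _ fun P _ => ?_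
      exact pow_dvd_pow _ (by have := (hy y hyQ P).2; omega)
  · intro n₁ n₂ e A h₁ h₂ he hA
    rw [(hLOP f e A R n₁ n₂ hf hA h₁ h₂).1]
    have e1 : ∏ P ∈ R, mBC f A (P.1 ^ 2) (wl f P (tt n₁ n₂ P) e A) =
        ∏ P ∈ R, ∑ x ∈ D, if P.1 ^ x.1 ∣ A ∧ P.1 ^ x.2 ∣ e then fp P (tt n₁ n₂ P) x else 0 := by
      refine Finset.prod_congr rfl fun P hP => ?_
      rw [(hLOC f e A P hf he hA).1 _ (tt_le k n₁ n₂ P),
        hGLF.1 _ _ _ _ (vi_le k P A) (vi_le k P e),
        ← cut_sum (vi P A) (vi P e) (vi_le k P A) (vi_le k P e) (Fl (1 / np P) (tt n₁ n₂ P))]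
      refine Finset.sum_congr rfl fun x hx => ?_
      have h2 := Finset.mem_product.mp hx
      have h3 := le_vi k P A x.1 (Finset.mem_range.mp h2.1)
      have h4 := le_vi k P e x.2 (Finset.mem_range.mp h2.2)
      by_cases h5 : x.1 ≤ vi P A ∧ x.2 ≤ vi P e
      · rw [if_pos h5, if_pos ⟨h3.mp h5.1, h4.mp h5.2⟩]
      · rw [if_neg h5, if_neg (fun h6 => h5 ⟨h3.mpr h6.1, h4.mpr h6.2⟩)]
    rw [e1, Finset.prod_sum]
    have e2 : ∀ x ∈ Q.image pr, (if x.1 ∣ A ∧ x.2 ∣ e then ∑ y ∈ Q.filter (fun y => pr y = x),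
        ∏ P ∈ R.attach, fp P.1 (tt n₁ n₂ P.1) (y P.1 P.2) else 0) =
        ∑ y ∈ Q.filter (fun y => pr y = x), if (pr y).1 ∣ A ∧ (pr y).2 ∣ e then
          ∏ P ∈ R.attach, fp P.1 (tt n₁ n₂ P.1) (y P.1 P.2) else 0 := by
      intro x _
      by_cases h : x.1 ∣ A ∧ x.2 ∣ e
      · rw [if_pos h]
        refine Finset.sum_congr rfl fun y hy' => ?_
        rw [(Finset.mem_filter.mp hy').2, if_pos h]
      · rw [if_neg h]
        symm
        refine Finset.sum_eq_zero fun y hy' => ?_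
        rw [(Finset.mem_filter.mp hy').2, if_neg h]
    rw [Finset.sum_congr rfl e2]
    rw [Finset.sum_fiberwise_of_maps_to (fun y hyQ => Finset.mem_image_of_mem pr hyQ)]
    refine Finset.sum_congr rfl fun y hyQ => ?_
    rw [Finset.prod_ite_zero]
    have e3 : ((pr y).1 ∣ A ∧ (pr y).2 ∣ e) ↔
        ∀ P ∈ R.attach, P.1.1 ^ (y P.1 P.2).1 ∣ A ∧ P.1.1 ^ (y P.1 P.2).2 ∣ e := by
      simp only [pr]
      rw [hdvd (fun P => (y P.1 P.2).1) A, hdvd (fun P => (y P.1 P.2).2) e]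
      constructor
      · rintro ⟨h3, h4⟩ P hP
        exact ⟨h3 P hP, h4 P hP⟩
      · intro h
        exact ⟨fun P hP => (h P hP).1, fun P hP => (h P hP).2⟩
    by_cases h : (pr y).1 ∣ A ∧ (pr y).2 ∣ e
    · rw [if_pos h, if_pos (e3.mp h)]
    · rw [if_neg h, if_neg (fun h' => h (e3.mpr h'))]
  · -- the total mass
    let g : PrI k → ℕ → ℝ := fun P t => ∑ x ∈ D, fp P t x / (np P ^ x.1 * np P ^ x.2)
    have e1 : ∀ n₁ n₂ : Finset (PrI k), ∑ x ∈ Q.image pr,
        (∑ y ∈ Q.filter (fun y => pr y = x),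
        ∏ P ∈ R.attach, fp P.1 (tt n₁ n₂ P.1) (y P.1 P.2)) / (nm x.1 * nm x.2) =
        ∏ P ∈ R, g P (tt n₁ n₂ P) := by
      intro n₁ n₂
      simp only [g]
      rw [Finset.prod_sum]
      have e2 : ∀ x ∈ Q.image pr, (∑ y ∈ Q.filter (fun y => pr y = x),
          ∏ P ∈ R.attach, fp P.1 (tt n₁ n₂ P.1) (y P.1 P.2)) / (nm x.1 * nm x.2) =
          ∑ y ∈ Q.filter (fun y => pr y = x), (∏ P ∈ R.attach,
            fp P.1 (tt n₁ n₂ P.1) (y P.1 P.2)) / (nm (pr y).1 * nm (pr y).2) := by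
        intro x _
        rw [Finset.sum_div]
        refine Finset.sum_congr rfl fun y hy' => ?_
        rw [(Finset.mem_filter.mp hy').2]
      rw [Finset.sum_congr rfl e2,
        Finset.sum_fiberwise_of_maps_to (fun y hyQ => Finset.mem_image_of_mem pr hyQ)]
      refine Finset.sum_congr rfl fun y _ => ?_
      simp only [pr]
      rw [hprod, hprod, ← Finset.prod_mul_distrib, ← Finset.prod_div_distrib]
      refine Finset.prod_congr rfl fun P _ => ?_
      rw [hpow, hpow]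
      rfl
    simp only [e1]
    have e2 : ∀ n₁ ∈ R.powerset, ∑ n₂ ∈ R.powerset, ∏ P ∈ R, g P (tt n₁ n₂ P) =
        ∏ P ∈ R, (if P ∈ n₁ then g P 2 + g P 1 else g P 1 + g P 0) := by
      intro n₁ _
      have e3 : ∀ n₂ ∈ R.powerset, ∏ P ∈ R, g P (tt n₁ n₂ P) =
          ∏ P ∈ R, (if P ∈ n₂ then g P ((if P ∈ n₁ then 1 else 0) + 1) else
            g P ((if P ∈ n₁ then 1 else 0) + 0)) := by
        intro n₂ _
        refine Finset.prod_congr rfl fun P _ => ?_
        unfold tt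
        by_cases h : P ∈ n₂
        · rw [if_pos h, if_pos h]
        · rw [if_neg h, if_neg h]
      rw [Finset.sum_congr rfl e3, pow_sum]
      refine Finset.prod_congr rfl fun P _ => ?_
      by_cases h : P ∈ n₁
      · simp [h]
      · simp [h]
    rw [Finset.sum_congr rfl e2, pow_sum]
    have e4 : ∀ P ∈ R, (g P 2 + g P 1 + (g P 1 + g P 0)) =
        (1 - 1 / np P) ^ 3 * (1 - 1 / np P ^ 2) := by
      intro P _
      have h := hGLF.2 (1 / np P)
      have e5 : g P 2 + g P 1 + (g P 1 + g P 0) = ∑ x ∈ D,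
          (Fl (1 / np P) 0 x.1 x.2 + 2 * Fl (1 / np P) 1 x.1 x.2 + Fl (1 / np P) 2 x.1 x.2) *
            (1 / np P) ^ (x.1 + x.2) := by
        simp only [g, fp]
        rw [← Finset.sum_add_distrib, ← Finset.sum_add_distrib, ← Finset.sum_add_distrib]
        refine Finset.sum_congr rfl fun x _ => ?_
        rw [← pow_add, one_div_pow]
        ring
      rw [e5, Finset.sum_product, h, one_div_pow]
    rw [Finset.prod_congr rfl e4, Finset.prod_mul_distrib, Finset.prod_pow]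
    unfold dR
    have h2 : (2 : ℝ) ^ dg k ≠ 0 := by positivity
    field_simp

end

end Pool.Agent.H31.NVK
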